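import Mathlib
import Pool.Agent.Results.MP_705b7e_co.StarForestBounds

/-!
# MP_624632_co: the least Ramsey number of a graph on `n` vertices without isolated vertices

For `n ≥ 2`,
`n + log₂ n - log₂ (log₂ n + 4) - 2 ≤ f(n) ≤ n + ⌈log₂ n⌉ + 2`,
hence `f(n) = n + (1 + o(1)) log₂ n`.

Upper bound: a star forest with `k = ⌈log₂ n⌉` stars such that the last `m` stars together have
`min (2 ^ m + 2 m - 1, n - 2 (k - m))` vertices; the bound for the Ramsey number of a star forest
proved in `StarForestBounds` gives `r ≤ n + k + 2`.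
Lower bound: if `G` has `c` components and `r(G) = n + t`, the colouring with `c - 1` vertices
joined to everything in red gives `c ≤ t + 1`, and the colourings with two red cliques of sizes
`x` and `N - x`, for `0 ≤ x ≤ N`, give `N + 1 ≤ 2 ^ (c + 1) (t + 1)`.
-/

set_option autoImplicit false

namespace Pool.Agent.Results.MP_624632_co.LogAsymptotics

open Finset Classical Filter Topology
open Pool.Agent.Results.MP_705b7e_co.StarForestBounds (Arrows ramseyNumber starForest
  arrows_of_bound card_vertices starForest_adj Arrows.mono)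

/-- The least Ramsey number of a graph with exactly `n` vertices and no isolated vertex. -/
noncomputable def minRamsey (n : ℕ) : ℕ :=
  sInf {r : ℕ | ∃ G : SimpleGraph (Fin n), (∀ v, ∃ w, G.Adj v w) ∧ r = ramseyNumber G}

/-! ### Ramsey numbers exist -/

theorem ramsey_aux : ∀ (m a b : ℕ), a + b = m → ∀ (V : Type) (R : SimpleGraph V)
    (A : Finset V), 2 ^ m ≤ A.card →
    (∃ s : Finset V, s ⊆ A ∧ s.card = a ∧ ∀ x ∈ s, ∀ y ∈ s, x ≠ y → R.Adj x y) ∨
    (∃ s : Finset V, s ⊆ A ∧ s.card = b ∧ ∀ x ∈ s, ∀ y ∈ s, x ≠ y → ¬ R.Adj x y) := by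
  intro m
  induction m with
  | zero =>
    intro a b hab V R A _
    exact Or.inl ⟨∅, by simp, by simp; omega, by simp⟩
  | succ m ih =>
    intro a b hab V R A hA
    rcases Nat.eq_zero_or_pos a with rfl | ha
    · exact Or.inl ⟨∅, by simp, by simp, by simp⟩
    rcases Nat.eq_zero_or_pos b with rfl | hb
    · exact Or.inr ⟨∅, by simp, by simp, by simp⟩
    have hpos : 0 < A.card := lt_of_lt_of_le (by positivity) hA
    obtain ⟨v, hv⟩ := Finset.card_pos.mp hpos
    set B := A.erase v with hB
    have hBc : B.card = A.card - 1 := Finset.card_erase_of_mem hv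
    have hsplit : (B.filter (fun w => R.Adj v w)).card + (B.filter (fun w => ¬ R.Adj v w)).card
        = B.card := Finset.card_filter_add_card_filter_not _
    have h2 : 2 ^ (m + 1) = 2 ^ m + 2 ^ m := by ring
    have hcase : 2 ^ m ≤ (B.filter (fun w => R.Adj v w)).card ∨
        2 ^ m ≤ (B.filter (fun w => ¬ R.Adj v w)).card := by
      by_contra hcon
      push Not at hcon
      have := hcon.1
      have := hcon.2
      omega
    have hsub1 : B ⊆ A := Finset.erase_subset _ _
    rcases hcase with h | h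
    · rcases ih (a - 1) b (by omega) V R _ h with ⟨s, hs, hc, hadj⟩ | ⟨s, hs, hc, hadj⟩
      · have hvs : v ∉ s := fun hmem => by
          have := hs hmem
          simp [hB] at this
        refine Or.inl ⟨insert v s, ?_, ?_, ?_⟩
        · intro x hx
          rcases Finset.mem_insert.mp hx with rfl | hx
          · exact hv
          · exact hsub1 (Finset.mem_of_mem_filter _ (hs hx))
        · rw [Finset.card_insert_of_notMem hvs]; omega
        · intro x hx y hy hxy
          rcases Finset.mem_insert.mp hx with hx' | hx'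
          · rcases Finset.mem_insert.mp hy with hy' | hy'
            · exact absurd (hx'.trans hy'.symm) hxy
            · rw [hx']
              exact (Finset.mem_filter.mp (hs hy')).2
          · rcases Finset.mem_insert.mp hy with hy' | hy'
            · rw [hy']
              exact ((Finset.mem_filter.mp (hs hx')).2).symm
            · exact hadj x hx' y hy' hxy
      · exact Or.inr ⟨s, fun x hx => hsub1 (Finset.mem_of_mem_filter _ (hs hx)), hc, hadj⟩
    · rcases ih a (b - 1) (by omega) V R _ h with ⟨s, hs, hc, hadj⟩ | ⟨s, hs, hc, hadj⟩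
      · exact Or.inl ⟨s, fun x hx => hsub1 (Finset.mem_of_mem_filter _ (hs hx)), hc, hadj⟩
      · have hvs : v ∉ s := fun hmem => by
          have := hs hmem
          simp [hB] at this
        refine Or.inr ⟨insert v s, ?_, ?_, ?_⟩
        · intro x hx
          rcases Finset.mem_insert.mp hx with rfl | hx
          · exact hv
          · exact hsub1 (Finset.mem_of_mem_filter _ (hs hx))
        · rw [Finset.card_insert_of_notMem hvs]; omega
        · intro x hx y hy hxy
          rcases Finset.mem_insert.mp hx with hx' | hx'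
          · rcases Finset.mem_insert.mp hy with hy' | hy'
            · exact absurd (hx'.trans hy'.symm) hxy
            · rw [hx']
              exact (Finset.mem_filter.mp (hs hy')).2
          · rcases Finset.mem_insert.mp hy with hy' | hy'
            · rw [hy']
              exact fun hR => (Finset.mem_filter.mp (hs hx')).2 hR.symm
            · exact hadj x hx' y hy' hxy

/-- The Ramsey number of every finite graph exists. -/
theorem exists_arrows {n : ℕ} (G : SimpleGraph (Fin n)) : ∃ N, Arrows N G := by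
  refine ⟨2 ^ (n + n), ?_⟩
  intro R
  have key : ∀ (Q : SimpleGraph (Fin (2 ^ (n + n)))) (s : Finset (Fin (2 ^ (n + n)))),
      s.card = n → (∀ x ∈ s, ∀ y ∈ s, x ≠ y → Q.Adj x y) → G.IsContained Q := by
    intro Q s hs hadj
    let e : Fin n ≃ s := (Fintype.equivFinOfCardEq (by simp [hs])).symm
    refine ⟨⟨⟨fun i => (e i : Fin (2 ^ (n + n))), ?_⟩, ?_⟩⟩
    · intro i j hij
      refine hadj _ (e i).2 _ (e j).2 ?_
      intro h
      exact hij.ne (e.injective (Subtype.ext h))
    · intro i j h
      exact e.injective (Subtype.ext h)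
  rcases ramsey_aux (n + n) n n rfl _ R univ (by simp) with ⟨s, _, hc, hadj⟩ | ⟨s, _, hc, hadj⟩
  · exact Or.inl (key R s hc hadj)
  · refine Or.inr (key Rᶜ s hc ?_)
    intro x hx y hy hxy
    rw [SimpleGraph.compl_adj]
    exact ⟨hxy, hadj x hx y hy hxy⟩

theorem arrows_ramseyNumber {n : ℕ} (G : SimpleGraph (Fin n)) : Arrows (ramseyNumber G) G :=
  Nat.sInf_mem (s := {N : ℕ | Arrows N G}) (exists_arrows G)

/-! ### The upper bound -/

theorem arrows_transfer {V W : Type} {G : SimpleGraph V} {H : SimpleGraph W} (hGH : G.IsContained H)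
    {N : ℕ} (h : Arrows N H) : Arrows N G := by
  intro R
  rcases h R with h1 | h1
  · exact Or.inl (hGH.trans h1)
  · exact Or.inr (hGH.trans h1)

/-- The number of vertices of the last `m` stars. -/
def Y (n K m : ℕ) : ℕ := min (2 ^ m + 2 * m - 1) (n - 2 * (K - m))

theorem upper_aux (n K : ℕ) (hK : 1 ≤ K) (h1 : 2 * K ≤ n) (h2 : n ≤ 2 ^ K + 2 * K - 1) :
    minRamsey n ≤ n + K + 2 := by
  have hY0 : Y n K 0 = 0 := by simp [Y]
  have hYK : Y n K K = n := by
    unfold Y
    rw [Nat.sub_self, Nat.mul_zero, Nat.sub_zero]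
    exact Nat.min_eq_right h2
  have hstep : ∀ m, m < K → Y n K m + 2 ≤ Y n K (m + 1) := by
    intro m hm
    unfold Y
    have : 2 ^ (m + 1) = 2 * 2 ^ m := by ring
    have hp : 1 ≤ 2 ^ m := Nat.one_le_two_pow
    omega
  have hgrow : ∀ m, m < K → Y n K (m + 1) + 2 * (m + 1) ≤ 2 * Y n K m + 5 := by
    intro m hm
    unfold Y
    have : 2 ^ (m + 1) = 2 * 2 ^ m := by ring
    have hp : 1 ≤ 2 ^ m := Nat.one_le_two_pow
    omega
  set s : ℕ → ℕ := fun i => Y n K (K - i) - Y n K (K - i - 1) - 1 with hs
  have hs1 : ∀ i, i < K → s i + 1 + Y n K (K - (i + 1)) = Y n K (K - i) ∧ 1 ≤ s i := by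
    intro i hi
    have h := hstep (K - i - 1) (by omega)
    rw [show K - i - 1 + 1 = K - i by omega] at h
    have hsi : s i = Y n K (K - i) - Y n K (K - i - 1) - 1 := rfl
    rw [hsi, show K - (i + 1) = K - i - 1 by omega]
    omega
  have hsum : ∀ i, i ≤ K → ∑ l ∈ range i, s l + i + Y n K (K - i) = n := by
    intro i
    induction i with
    | zero => intro _; simp [hYK]
    | succ i ih =>
      intro hi
      have h3 := ih (by omega)
      have h4 := (hs1 i (by omega)).1
      rw [Finset.sum_range_succ]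
      omega
  have hA : Arrows (n + K + 2) (starForest K s) := by
    refine arrows_of_bound K _ s hK ?_
    intro i hi
    have h3 := hsum i hi.le
    have h4 := (hs1 i hi).1
    have h5 := hgrow (K - i - 1) (by omega)
    rw [show K - i - 1 + 1 = K - i by omega] at h5
    rw [show K - (i + 1) = K - i - 1 by omega] at h4
    omega
  have hcard : Fintype.card (Σ i : Fin K, Option (Fin (s i))) = n := by
    rw [card_vertices]
    have := hsum K le_rfl
    rw [Nat.sub_self, hY0] at this
    omega
  let e : (Σ i : Fin K, Option (Fin (s i))) ≃ Fin n := Fintype.equivFinOfCardEq hcard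
  let G : SimpleGraph (Fin n) := (starForest K s).comap e.symm
  have hGF : G.IsContained (starForest K s) :=
    ⟨⟨⟨e.symm, fun {a b} hab => hab⟩, e.symm.injective⟩⟩
  have hiso : ∀ v, ∃ w, G.Adj v w := by
    intro v
    obtain ⟨x, rfl⟩ := e.surjective v
    obtain ⟨i, a⟩ := x
    rcases a with _ | a
    · have hi1 : 0 < s i := (hs1 i i.2).2
      refine ⟨e ⟨i, some ⟨0, hi1⟩⟩, ?_⟩
      have h7 := starForest_adj K s i ⟨0, hi1⟩
      simpa [G] using h7
    · refine ⟨e ⟨i, none⟩, ?_⟩
      have h7 := (starForest_adj K s i a).symm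
      simpa [G] using h7
  have h6 : ramseyNumber G ≤ n + K + 2 := Nat.sInf_le (arrows_transfer hGF hA)
  have h7 : minRamsey n ≤ ramseyNumber G := Nat.sInf_le ⟨G, hiso, rfl⟩
  exact h7.trans h6

theorem upper (n : ℕ) (hn : 2 ≤ n) : minRamsey n ≤ n + Nat.clog 2 n + 2 := by
  have hle : n ≤ 2 ^ Nat.clog 2 n := Nat.le_pow_clog (by norm_num) n
  have hpos : 1 ≤ Nat.clog 2 n := Nat.clog_pos (by norm_num) hn
  by_cases h : 2 * Nat.clog 2 n ≤ n
  · exact upper_aux n _ hpos h (by omega)
  · have hlt : 2 ^ (Nat.clog 2 n).pred < n := Nat.pow_pred_clog_lt_self (by norm_num) hn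
    push Not at h
    have hK : Nat.clog 2 n ≤ 3 := by
      by_contra hc
      push Not at hc
      obtain ⟨j, hj⟩ : ∃ j, Nat.clog 2 n = j + 4 := ⟨Nat.clog 2 n - 4, by omega⟩
      rw [hj] at hlt h
      have : (j + 4).pred = j + 3 := rfl
      rw [this] at hlt
      have h8 : 2 ^ (j + 3) = 8 * 2 ^ j := by ring
      have h9 : j < 2 ^ j := Nat.lt_two_pow_self
      omega
    have hn5 : n ≤ 5 := by omega
    interval_cases n
    · have : Nat.clog 2 2 = 1 := by decide
      omega
    · have h3 : Nat.clog 2 3 = 2 := by decide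
      have := upper_aux 3 1 (by norm_num) (by norm_num) (by norm_num)
      omega
    · have : Nat.clog 2 4 = 2 := by decide
      omega
    · have h3 : Nat.clog 2 5 = 3 := by decide
      have := upper_aux 5 2 (by norm_num) (by norm_num) (by norm_num)
      omega

/-! ### The lower bound -/

section Lower

variable {n : ℕ} (G : SimpleGraph (Fin n))

theorem le_of_arrows {N : ℕ} (hA : Arrows N G) : n ≤ N := by
  have h : ∀ R : SimpleGraph (Fin N), G.IsContained R → n ≤ N := by
    rintro R ⟨φ⟩
    have := Fintype.card_le_of_injective (fun x => φ x) φ.injective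
    simpa using this
  rcases hA ⊥ with h1 | h1
  · exact h _ h1
  · exact h _ h1

/-- The colouring with `c - 1` vertices joined to everything in red, where `c` is the number of
components. -/
theorem card_comp_le (hG : ∀ v, ∃ w, G.Adj v w) {N : ℕ} (hA : Arrows N G) :
    n + Fintype.card G.ConnectedComponent ≤ N + 1 := by
  by_contra hcon
  push Not at hcon
  have hnN := le_of_arrows G hA
  set c := Fintype.card G.ConnectedComponent with hc
  have hcn : c ≤ n := by
    have h := Fintype.card_le_of_surjective (fun v : Fin n => G.connectedComponentMk v)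
      (fun i => i.exists_rep)
    rwa [Fintype.card_fin] at h
  let R : SimpleGraph (Fin N) :=
    { Adj := fun x y => x ≠ y ∧ ((x : ℕ) < c - 1 ∨ (y : ℕ) < c - 1)
      symm := ⟨fun x y h => ⟨h.1.symm, h.2.symm⟩⟩
      loopless := ⟨fun x h => h.1 rfl⟩ }
  rcases hA R with hφ | hφ
  · obtain ⟨φ⟩ := hφ
    have hinj : Function.Injective (fun x => φ x) := φ.injective
    have hex : ∀ i : G.ConnectedComponent, ∃ v : Fin n, G.connectedComponentMk v = i ∧
        ((φ v : Fin _) : ℕ) < c - 1 := by
      intro i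
      obtain ⟨v, rfl⟩ := i.exists_rep
      obtain ⟨w, hvw⟩ := hG v
      have h1 : R.Adj (φ v) (φ w) := φ.toHom.map_adj hvw
      rcases h1.2 with h | h
      · exact ⟨v, rfl, h⟩
      · exact ⟨w, (SimpleGraph.ConnectedComponent.sound hvw.reachable).symm, h⟩
    choose a ha1 ha2 using hex
    have : (univ : Finset G.ConnectedComponent).card ≤ (range (c - 1)).card := by
      refine Finset.card_le_card_of_injOn (fun i => ((φ (a i) : Fin _) : ℕ)) ?_ ?_
      · intro i _
        simpa using ha2 i
      · intro i _ j _ hij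
        have h3 := hinj (Fin.ext hij)
        rw [← ha1 i, ← ha1 j, h3]
    rw [card_univ, ← hc, card_range] at this
    omega
  · obtain ⟨φ⟩ := hφ
    have hinj : Function.Injective (fun x => φ x) := φ.injective
    have hge : ∀ x, c - 1 ≤ ((φ x : Fin _) : ℕ) := by
      intro x
      obtain ⟨y, hxy⟩ := hG x
      have h1 : Rᶜ.Adj (φ x) (φ y) := φ.toHom.map_adj hxy
      rw [SimpleGraph.compl_adj] at h1
      by_contra hlt
      exact h1.2 ⟨h1.1, Or.inl (by omega)⟩
    have : (univ : Finset (Fin n)).card ≤ (range (N - (c - 1))).card := by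
      refine Finset.card_le_card_of_injOn (fun x => ((φ x : Fin _) : ℕ) - (c - 1)) ?_ ?_
      · intro x _
        have h1 := hge x
        have h2 := (φ x).2
        simp only [coe_range, Set.mem_Iio]
        omega
      · intro x _ y _ hxy
        have h1 := hge x
        have h2 := hge y
        refine hinj (Fin.ext ?_)
        simp only at hxy ⊢
        omega
    rw [card_univ, Fintype.card_fin, card_range] at this
    omega

/-- The colouring with two red cliques of sizes `x` and `N - x`. -/
theorem exists_side {N : ℕ} (hA : Arrows N G) (x : ℕ) (hx : x ≤ N) :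
    ∃ (b : Bool) (χ : Fin n → Bool), (∀ v w, G.Adj v w → χ w = xor (χ v) b) ∧
      (univ.filter (fun v => χ v = true)).card ≤ x ∧
      x ≤ (univ.filter (fun v => χ v = true)).card + (N - n) := by
  have hnN := le_of_arrows G hA
  let R : SimpleGraph (Fin N) :=
    { Adj := fun u v => u ≠ v ∧ ((u : ℕ) < x ↔ (v : ℕ) < x)
      symm := ⟨fun u v h => ⟨h.1.symm, h.2.symm⟩⟩
      loopless := ⟨fun u h => h.1 rfl⟩ }
  have key : ∀ f : Fin n → Fin N, Function.Injective f →
      (univ.filter (fun v => decide ((f v : ℕ) < x) = true)).card ≤ x ∧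
      x ≤ (univ.filter (fun v => decide ((f v : ℕ) < x) = true)).card + (N - n) := by
    intro f hf
    have h1 : (univ.filter (fun v => decide ((f v : ℕ) < x) = true)).card ≤ (range x).card := by
      refine Finset.card_le_card_of_injOn (fun v => (f v : ℕ)) ?_ ?_
      · intro v hv
        simpa using hv
      · intro v _ w _ hvw
        exact hf (Fin.ext hvw)
    have h2 : (univ.filter (fun v => ¬ decide ((f v : ℕ) < x) = true)).card
        ≤ (range (N - x)).card := by
      refine Finset.card_le_card_of_injOn (fun v => (f v : ℕ) - x) ?_ ?_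
      · intro v hv
        have := (f v).2
        simp only [coe_filter, mem_univ, true_and, Set.mem_ofPred_eq, decide_eq_true_eq,
          not_lt] at hv
        simp only [coe_range, Set.mem_Iio]
        omega
      · intro v hv w hw hvw
        simp only [coe_filter, mem_univ, true_and, Set.mem_ofPred_eq, decide_eq_true_eq,
          not_lt] at hv hw
        refine hf (Fin.ext ?_)
        simp only at hvw
        omega
    have h3 : (univ.filter (fun v => decide ((f v : ℕ) < x) = true)).card +
        (univ.filter (fun v => ¬ decide ((f v : ℕ) < x) = true)).card = n := by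
      rw [Finset.card_filter_add_card_filter_not]
      simp
    rw [card_range] at h1 h2
    omega
  rcases hA R with hφ | hφ
  · obtain ⟨φ⟩ := hφ
    refine ⟨false, fun v => decide (((φ v : Fin _) : ℕ) < x), ?_, key (fun v => φ v) φ.injective⟩
    intro v w hvw
    have h1 : R.Adj (φ v) (φ w) := φ.toHom.map_adj hvw
    have h2 := h1.2
    simp [h2]
  · obtain ⟨φ⟩ := hφ
    refine ⟨true, fun v => decide (((φ v : Fin _) : ℕ) < x), ?_, key (fun v => φ v) φ.injective⟩
    intro v w hvw
    have h1 : Rᶜ.Adj (φ v) (φ w) := φ.toHom.map_adj hvw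
    rw [SimpleGraph.compl_adj] at h1
    have h2 : ¬ (((φ v : Fin _) : ℕ) < x ↔ ((φ w : Fin _) : ℕ) < x) := fun h => h1.2 ⟨h1.1, h⟩
    by_cases h3 : ((φ v : Fin _) : ℕ) < x <;> by_cases h4 : ((φ w : Fin _) : ℕ) < x <;>
      simp_all

theorem side_unique (b : Bool) (χ ψ : Fin n → Bool)
    (h1 : ∀ v w, G.Adj v w → χ w = xor (χ v) b) (h2 : ∀ v w, G.Adj v w → ψ w = xor (ψ v) b)
    (v w : Fin n) (hvw : G.Reachable v w) (h : χ v = ψ v) : χ w = ψ w := by
  obtain ⟨p⟩ := hvw
  induction p with
  | nil => exact h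
  | cons hadj p ih =>
    apply ih
    rw [h1 _ _ hadj, h2 _ _ hadj, h]

theorem count {N : ℕ} (hA : Arrows N G) :
    N + 1 ≤ 2 * 2 ^ Fintype.card G.ConnectedComponent * (N - n + 1) := by
  have hex : ∀ x : Fin (N + 1), ∃ (b : Bool) (χ : Fin n → Bool),
      (∀ v w, G.Adj v w → χ w = xor (χ v) b) ∧
      (univ.filter (fun v => χ v = true)).card ≤ x ∧
      (x : ℕ) ≤ (univ.filter (fun v => χ v = true)).card + (N - n) :=
    fun x => exists_side G hA x (by have := x.2; omega)
  choose b χ h1 h2 h3 using hex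
  let g : Fin (N + 1) → (Bool × (G.ConnectedComponent → Bool)) × Fin (N - n + 1) := fun x =>
    ((b x, fun i => χ x i.out),
      ⟨(x : ℕ) - (univ.filter (fun v => χ x v = true)).card, by have := h3 x; omega⟩)
  have hg : Function.Injective g := by
    intro x y hxy
    have e1 : b x = b y := congrArg (fun z => z.1.1) hxy
    have e2 : (fun i : G.ConnectedComponent => χ x i.out) = fun i => χ y i.out :=
      congrArg (fun z => z.1.2) hxy
    have e3 : (x : ℕ) - (univ.filter (fun v => χ x v = true)).card =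
        (y : ℕ) - (univ.filter (fun v => χ y v = true)).card :=
      congrArg (fun z => ((z.2 : Fin (N - n + 1)) : ℕ)) hxy
    have e4 : χ x = χ y := by
      funext v
      have hreach : G.Reachable (G.connectedComponentMk v).out v :=
        SimpleGraph.ConnectedComponent.exact (Quot.out_eq _)
      refine side_unique G (b x) (χ x) (χ y) (h1 x) (by rw [e1]; exact h1 y) _ v hreach ?_
      exact congrFun e2 (G.connectedComponentMk v)
    have h4 := h2 x
    have h5 := h2 y
    rw [e4] at e3 h4
    exact Fin.ext (by omega)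
  have h4 := Fintype.card_le_of_injective g hg
  simpa using h4

theorem lower_nat (hG : ∀ v, ∃ w, G.Adj v w) {N : ℕ} (hA : Arrows N G) :
    N + 1 ≤ 2 ^ (N - n + 2) * (N - n + 1) := by
  have h1 := count G hA
  have h2 := card_comp_le G hG hA
  have hnN := le_of_arrows G hA
  refine h1.trans (Nat.mul_le_mul_right _ ?_)
  rw [← pow_succ']
  exact Nat.pow_le_pow_right (by norm_num) (by omega)

end Lower

theorem exists_graph (n : ℕ) (hn : 2 ≤ n) : ∃ G : SimpleGraph (Fin n), ∀ v, ∃ w, G.Adj v w := by
  refine ⟨⊤, fun v => ?_⟩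
  have : Nontrivial (Fin n) := Fin.nontrivial_iff_two_le.mpr hn
  obtain ⟨w, hw⟩ := exists_ne v
  exact ⟨w, by simpa using hw.symm⟩

theorem attained (n : ℕ) (hn : 2 ≤ n) :
    ∃ G : SimpleGraph (Fin n), (∀ v, ∃ w, G.Adj v w) ∧ ramseyNumber G = minRamsey n := by
  obtain ⟨G0, hG0⟩ := exists_graph n hn
  obtain ⟨G, hG, hr⟩ := Nat.sInf_mem (s := {r : ℕ | ∃ G : SimpleGraph (Fin n),
    (∀ v, ∃ w, G.Adj v w) ∧ r = ramseyNumber G}) ⟨_, G0, hG0, rfl⟩
  exact ⟨G, hG, hr.symm⟩

theorem lower (n : ℕ) (hn : 2 ≤ n) :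
    n ≤ minRamsey n ∧ n ≤ 2 ^ (minRamsey n - n + 2) * (minRamsey n - n + 1) := by
  obtain ⟨G, hG, hr⟩ := attained n hn
  have hA := arrows_ramseyNumber G
  rw [hr] at hA
  have h1 := le_of_arrows G hA
  have h2 := lower_nat G hG hA
  exact ⟨h1, by omega⟩

/-! ### The asymptotics -/

theorem clog_le (n : ℕ) (hn : 2 ≤ n) : (Nat.clog 2 n : ℝ) ≤ Real.logb 2 n + 1 := by
  have hpos : 1 ≤ Nat.clog 2 n := Nat.clog_pos (by norm_num) hn
  have hlt : 2 ^ (Nat.clog 2 n).pred < n := Nat.pow_pred_clog_lt_self (by norm_num) hn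
  obtain ⟨j, hj⟩ : ∃ j, Nat.clog 2 n = j + 1 := ⟨Nat.clog 2 n - 1, by omega⟩
  rw [hj] at hlt
  have h1 : (2 : ℝ) ^ j < n := by exact_mod_cast hlt
  have h2 : (j : ℝ) ≤ Real.logb 2 n := by
    rw [Real.le_logb_iff_rpow_le (by norm_num) (by positivity)]
    rw [Real.rpow_natCast]
    exact h1.le
  rw [hj]
  push_cast
  linarith

theorem lower_real (n : ℕ) (hn : 2 ≤ n) :
    (n : ℝ) + Real.logb 2 n - Real.logb 2 (Real.logb 2 n + 4) - 2 ≤ minRamsey n := by
  obtain ⟨h1, h2⟩ := lower n hn
  have h3 := upper n hn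
  obtain ⟨t, ht⟩ : ∃ t, minRamsey n = n + t := ⟨minRamsey n - n, by omega⟩
  rw [ht] at h2 h3
  rw [show n + t - n = t by omega] at h2
  have h4 : (t : ℝ) ≤ Real.logb 2 n + 3 := by
    have h5 := clog_le n hn
    have h6 : (t : ℝ) ≤ Nat.clog 2 n + 2 := by exact_mod_cast (by omega : t ≤ Nat.clog 2 n + 2)
    linarith
  have hn0 : (0 : ℝ) < n := by positivity
  have h5 : Real.logb 2 n ≤ (t : ℝ) + 2 + Real.logb 2 (t + 1) := by
    have h6 : (n : ℝ) ≤ 2 ^ (t + 2) * (t + 1) := by exact_mod_cast h2
    have h7 : Real.logb 2 n ≤ Real.logb 2 ((2 : ℝ) ^ (t + 2) * (t + 1)) :=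
      Real.logb_le_logb_of_le (by norm_num) hn0 h6
    rw [Real.logb_mul (by positivity) (by positivity), Real.logb_pow] at h7
    simpa using h7
  have h8 : Real.logb 2 ((t : ℝ) + 1) ≤ Real.logb 2 (Real.logb 2 n + 4) :=
    Real.logb_le_logb_of_le (by norm_num) (by positivity) (by linarith)
  rw [ht]
  push_cast
  linarith

theorem tendsto_logb : Tendsto (fun n : ℕ => Real.logb 2 (n : ℝ)) atTop atTop :=
  (Real.tendsto_logb_atTop (by norm_num)).comp tendsto_natCast_atTop_atTop

theorem main_limit :
    Tendsto (fun n : ℕ => ((minRamsey n : ℝ) - n) / Real.logb 2 n) atTop (𝓝 1) := by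
  have hL := tendsto_logb
  -- the upper function
  have hup : Tendsto (fun n : ℕ => 1 + 3 / Real.logb 2 (n : ℝ)) atTop (𝓝 1) := by
    have := (tendsto_const_nhds (x := (3 : ℝ))).div_atTop hL
    simpa using (tendsto_const_nhds (x := (1 : ℝ))).add this
  have hlog : Tendsto (fun x : ℝ => Real.logb 2 (x + 4) / x) atTop (𝓝 0) := by
    have h1 : Tendsto (fun x : ℝ => Real.log x / x) atTop (𝓝 0) := by
      have := Real.isLittleO_log_id_atTop
      simpa using this.tendsto_div_nhds_zero
    have h2 : Tendsto (fun x : ℝ => Real.log (x + 4) / (x + 4)) atTop (𝓝 0) :=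
      h1.comp (tendsto_atTop_add_const_right _ _ tendsto_id)
    have h3 : Tendsto (fun x : ℝ => (x + 4) / x) atTop (𝓝 1) := by
      have h4 : Tendsto (fun x : ℝ => 1 + 4 / x) atTop (𝓝 (1 + 0)) :=
        tendsto_const_nhds.add ((tendsto_const_nhds (x := (4 : ℝ))).div_atTop tendsto_id)
      rw [add_zero] at h4
      refine h4.congr' ?_
      filter_upwards [eventually_gt_atTop 0] with x hx
      field_simp
    have h5 := (h2.mul h3).div_const (Real.log 2)
    simp only [zero_mul, zero_div] at h5
    refine h5.congr' ?_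
    filter_upwards [eventually_gt_atTop 0] with x hx
    have : x + 4 ≠ 0 := by positivity
    unfold Real.logb
    field_simp
  have hlo : Tendsto (fun n : ℕ => 1 - (Real.logb 2 (Real.logb 2 (n : ℝ) + 4) /
      Real.logb 2 (n : ℝ) + 2 / Real.logb 2 (n : ℝ))) atTop (𝓝 1) := by
    have h1 := hlog.comp hL
    have h2 := (tendsto_const_nhds (x := (2 : ℝ))).div_atTop hL
    simpa using (tendsto_const_nhds (x := (1 : ℝ))).sub (h1.add h2)
  refine tendsto_of_tendsto_of_tendsto_of_le_of_le' hlo hup ?_ ?_
  · filter_upwards [hL.eventually_gt_atTop 0, eventually_ge_atTop 2] with n hn h2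
    have h3 := lower_real n h2
    rw [le_div_iff₀ hn]
    have : (1 - (Real.logb 2 (Real.logb 2 (n : ℝ) + 4) / Real.logb 2 (n : ℝ) +
        2 / Real.logb 2 (n : ℝ))) * Real.logb 2 (n : ℝ) =
        Real.logb 2 n - Real.logb 2 (Real.logb 2 (n : ℝ) + 4) - 2 := by
      field_simp
      ring
    rw [this]
    linarith
  · filter_upwards [hL.eventually_gt_atTop 0, eventually_ge_atTop 2] with n hn h2
    have h3 : (minRamsey n : ℝ) ≤ n + Nat.clog 2 n + 2 := by exact_mod_cast upper n h2
    have h4 := clog_le n h2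
    rw [div_le_iff₀ hn]
    have : (1 + 3 / Real.logb 2 (n : ℝ)) * Real.logb 2 (n : ℝ) = Real.logb 2 n + 3 := by
      field_simp
    rw [this]
    linarith

/-- Let `minRamsey n` be the least Ramsey number of a graph on `n` vertices without isolated
vertices. Every Ramsey number involved exists, the minimum is attained, and for every `n ≥ 2`,
`n + log₂ n - log₂ (log₂ n + 4) - 2 ≤ minRamsey n ≤ n + ⌈log₂ n⌉ + 2`; in particular
`(minRamsey n - n) / log₂ n → 1`. -/
theorem result :
    (∀ (n : ℕ) (G : SimpleGraph (Fin n)), ∃ N, Arrows N G) ∧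
    (∀ n : ℕ, 2 ≤ n →
      (∃ G : SimpleGraph (Fin n), (∀ v, ∃ w, G.Adj v w) ∧ ramseyNumber G = minRamsey n) ∧
      (n : ℝ) + Real.logb 2 n - Real.logb 2 (Real.logb 2 n + 4) - 2 ≤ minRamsey n ∧
      minRamsey n ≤ n + Nat.clog 2 n + 2) ∧
    Tendsto (fun n : ℕ => ((minRamsey n : ℝ) - n) / Real.logb 2 n) atTop (𝓝 1) :=
  ⟨fun _ G => exists_arrows G, fun n hn => ⟨attained n hn, lower_real n hn, upper n hn⟩,
    main_limit⟩

end Pool.Agent.Results.MP_624632_co.LogAsymptotics
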